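import Mathlib

set_option autoImplicit false
open Classical

namespace Pool.Agent.R89.ET

/-- Derandomised sampling: a bounded family of functions with zero sum can be sampled at `m` points
with total squared error at most `m * card`. -/
theorem sampling {ι : Type*} (s : Finset ι) (n : ℕ) (hn : 0 < n) (Y : ι → Fin n → ℝ)
    (hY : ∀ p k, |Y p k| ≤ 1) (h0 : ∀ p, ∑ k, Y p k = 0) (m : ℕ) :
    ∃ κ : Fin m → Fin n, ∑ p ∈ s, (∑ t, Y p (κ t)) ^ 2 ≤ (m : ℝ) * s.card := by
  induction m with
  | zero =>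
    refine ⟨fun t => t.elim0, ?_⟩
    simp
  | succ m ih =>
    obtain ⟨κ, hκ⟩ := ih
    have key : ∑ k : Fin n, ∑ p ∈ s, (∑ t : Fin (m+1), Y p ((Fin.cons k κ : Fin (m+1) → Fin n) t)) ^ 2
        ≤ ∑ k : Fin n, ((m + 1 : ℕ) : ℝ) * s.card := by
      have h1 : ∀ k : Fin n, ∑ p ∈ s, (∑ t : Fin (m+1), Y p ((Fin.cons k κ : Fin (m+1) → Fin n) t)) ^ 2
          = ∑ p ∈ s, (∑ t, Y p (κ t)) ^ 2 + 2 * ∑ p ∈ s, (∑ t, Y p (κ t)) * Y p k
            + ∑ p ∈ s, (Y p k) ^ 2 := by
        intro k
        rw [Finset.mul_sum, ← Finset.sum_add_distrib, ← Finset.sum_add_distrib]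
        refine Finset.sum_congr rfl fun p _ => ?_
        rw [Fin.sum_univ_succ]
        simp only [Fin.cons_zero, Fin.cons_succ]
        ring
      simp_rw [h1]
      rw [Finset.sum_add_distrib, Finset.sum_add_distrib, ← Finset.mul_sum]
      have h2 : ∑ k : Fin n, ∑ p ∈ s, (∑ t, Y p (κ t)) * Y p k = 0 := by
        rw [Finset.sum_comm]
        refine Finset.sum_eq_zero fun p _ => ?_
        rw [← Finset.mul_sum, h0, mul_zero]
      rw [h2]
      have h3 : ∑ k : Fin n, ∑ p ∈ s, (Y p k) ^ 2 ≤ ∑ k : Fin n, (s.card : ℝ) := by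
        refine Finset.sum_le_sum fun k _ => ?_
        calc ∑ p ∈ s, (Y p k) ^ 2 ≤ ∑ p ∈ s, (1 : ℝ) := by
              refine Finset.sum_le_sum fun p _ => ?_
              have := hY p k
              rw [← sq_abs]
              have h0' := abs_nonneg (Y p k)
              nlinarith
          _ = s.card := by simp
      have h4 : ∑ k : Fin n, ∑ p ∈ s, (∑ t, Y p (κ t)) ^ 2 ≤ ∑ k : Fin n, (m : ℝ) * s.card :=
        Finset.sum_le_sum fun k _ => hκ
      have h5 : ∑ k : Fin n, ((m + 1 : ℕ) : ℝ) * s.card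
          = ∑ k : Fin n, (m : ℝ) * s.card + ∑ k : Fin n, (s.card : ℝ) := by
        rw [← Finset.sum_add_distrib]
        refine Finset.sum_congr rfl fun k _ => ?_
        push_cast
        ring
      rw [h5]
      linarith
    have : Nonempty (Fin n) := ⟨⟨0, hn⟩⟩
    obtain ⟨k, _, hk⟩ := Finset.exists_le_of_sum_le Finset.univ_nonempty key
    exact ⟨Fin.cons k κ, hk⟩

/-- Summation of a product weight over all graphs. -/
theorem sum_graphs (n : ℕ) (W : Fin n → Fin n → Bool → ℝ) (hW : ∀ i j x, 0 ≤ W i j x) :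
    ∑ G : SimpleGraph (Fin n), ∏ i : Fin n, ∏ j : Fin n,
      (if i < j then W i j (decide (G.Adj i j)) else 1)
      ≤ ∏ i : Fin n, ∏ j : Fin n, (if i < j then W i j false + W i j true else 1) := by
  set V : Fin n × Fin n → Bool → ℝ := fun p x =>
    if p.1 < p.2 then W p.1 p.2 x else (if x then 0 else 1) with hV
  have hV0 : ∀ p x, 0 ≤ V p x := by
    intro p x
    simp only [hV]
    split_ifs
    · exact hW _ _ _
    · exact le_refl _
    · norm_num
  have hR : ∏ i : Fin n, ∏ j : Fin n, (if i < j then W i j false + W i j true else 1)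
      = ∑ f : Fin n × Fin n → Bool, ∏ p, V p (f p) := by
    rw [← Fintype.prod_prod_type']
    have := Finset.prod_univ_sum (fun _ : Fin n × Fin n => (Finset.univ : Finset Bool)) V
    rw [Fintype.piFinset_univ] at this
    rw [← this]
    refine Finset.prod_congr rfl fun p _ => ?_
    rw [Fintype.sum_bool]
    by_cases h : p.1 < p.2 <;> simp [hV, h, add_comm]
  rw [hR]
  let F : SimpleGraph (Fin n) → (Fin n × Fin n → Bool) := fun G p => decide (p.1 < p.2 ∧ G.Adj p.1 p.2)
  have hF : Function.Injective F := by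
    intro G H h
    ext i j
    have h1 := congrFun h (i, j)
    have h2 := congrFun h (j, i)
    simp only [F, decide_eq_decide] at h1 h2
    rcases lt_trichotomy i j with hij | hij | hij
    · exact ⟨fun a => (h1.1 ⟨hij, a⟩).2, fun a => (h1.2 ⟨hij, a⟩).2⟩
    · subst hij
      exact ⟨fun a => (G.loopless.irrefl _ a).elim, fun a => (H.loopless.irrefl _ a).elim⟩
    · exact ⟨fun a => ((h2.1 ⟨hij, a.symm⟩).2).symm, fun a => ((h2.2 ⟨hij, a.symm⟩).2).symm⟩
  have hL : ∀ G : SimpleGraph (Fin n), ∏ i : Fin n, ∏ j : Fin n,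
      (if i < j then W i j (decide (G.Adj i j)) else 1) = ∏ p, V p (F G p) := by
    intro G
    rw [← Fintype.prod_prod_type']
    refine Finset.prod_congr rfl fun p _ => ?_
    simp only [hV, F]
    by_cases h : p.1 < p.2
    · simp [h]
    · simp [h]
  simp_rw [hL]
  rw [← Finset.sum_image (f := fun f => ∏ p, V p (f p)) (g := F) (s := Finset.univ)
    (fun a _ b _ h => hF h)]
  exact Finset.sum_le_sum_of_subset_of_nonneg (Finset.subset_univ _)
    (fun f _ _ => Finset.prod_nonneg fun p _ => hV0 _ _)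

/-- Fraction of rows `t` of the pattern `P` on which `i` and `j` agree. -/
noncomputable def agr {m n : ℕ} (P : Fin m → Fin n → Bool) (i j : Fin n) : ℝ :=
  ((Finset.univ.filter fun t : Fin m => P t i = P t j).card : ℝ) / m

/-- The weight attached to a pair by a pattern. -/
noncomputable def wt {m n : ℕ} (P : Fin m → Fin n → Bool) (i j : Fin n) (x : Bool) : ℝ :=
  if x then 1 - agr P i j else agr P i j

/-- The factor of the pair `i, j` in the graph `G`. -/
noncomputable def phi {n : ℕ} (G : SimpleGraph (Fin n)) (i j : Fin n) : ℝ :=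
  (((Finset.univ.filter (fun k : Fin n => k ≠ i ∧ k ≠ j ∧
                Even ((if G.Adj i j then 1 else 0) + (if G.Adj i k then 1 else 0)
                  + (if G.Adj j k then 1 else 0) : ℕ))).card : ℝ) / ((n : ℝ) - 2))

theorem agr_nonneg {m n : ℕ} (P : Fin m → Fin n → Bool) (i j : Fin n) : 0 ≤ agr P i j := by
  unfold agr; positivity

theorem agr_le_one {m n : ℕ} (P : Fin m → Fin n → Bool) (i j : Fin n) : agr P i j ≤ 1 := by
  unfold agr
  refine div_le_one_of_le₀ ?_ (Nat.cast_nonneg m)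
  have := Finset.card_filter_le (Finset.univ : Finset (Fin m)) (fun t => P t i = P t j)
  simp only [Finset.card_univ, Fintype.card_fin] at this
  exact_mod_cast this

theorem wt_nonneg {m n : ℕ} (P : Fin m → Fin n → Bool) (i j : Fin n) (x : Bool) : 0 ≤ wt P i j x := by
  unfold wt
  have h1 := agr_nonneg P i j
  have h2 := agr_le_one P i j
  split_ifs <;> linarith

/-- Full agreement fraction in the graph. -/
noncomputable def afull {n : ℕ} (G : SimpleGraph (Fin n)) (i j : Fin n) : ℝ :=
  ((Finset.univ.filter fun k : Fin n => (G.Adj k i ↔ G.Adj k j)).card : ℝ) / n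

theorem phi_nonneg {n : ℕ} (hn : 3 ≤ n) (G : SimpleGraph (Fin n)) (i j : Fin n) : 0 ≤ phi G i j := by
  unfold phi
  have : (3 : ℝ) ≤ n := by exact_mod_cast hn
  exact div_nonneg (Nat.cast_nonneg _) (by linarith)

theorem phi_le_one {n : ℕ} (hn : 3 ≤ n) (G : SimpleGraph (Fin n)) (i j : Fin n) (hij : i ≠ j) :
    phi G i j ≤ 1 := by
  unfold phi
  have h3 : (3 : ℝ) ≤ n := by exact_mod_cast hn
  rw [div_le_one (by linarith)]
  have h : (Finset.univ.filter (fun k : Fin n => k ≠ i ∧ k ≠ j ∧
                Even ((if G.Adj i j then 1 else 0) + (if G.Adj i k then 1 else 0)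
                  + (if G.Adj j k then 1 else 0) : ℕ))) ⊆ (Finset.univ.erase i).erase j := by
    intro k hk
    simp only [Finset.mem_filter, Finset.mem_univ, true_and] at hk
    simp [hk.1, hk.2.1]
  have h2 := Finset.card_le_card h
  rw [Finset.card_erase_of_mem (by simp [hij.symm]), Finset.card_erase_of_mem (by simp),
    Finset.card_univ, Fintype.card_fin] at h2
  have h4 : ((n - 1 - 1 : ℕ) : ℝ) = (n : ℝ) - 2 := by
    rw [Nat.sub_sub, Nat.cast_sub (by omega)]; norm_num
  rw [← h4]
  exact_mod_cast h2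

/-- The factor is, up to `2 / n`, the full agreement fraction or its complement. -/
theorem phi_le {n : ℕ} (hn : 3 ≤ n) (G : SimpleGraph (Fin n)) (i j : Fin n) (hij : i ≠ j) :
    phi G i j ≤ (if G.Adj i j then 1 - afull G i j else afull G i j) + 2 / n := by
  have h3 : (3 : ℝ) ≤ n := by exact_mod_cast hn
  have hle := phi_le_one hn G i j hij
  set c : ℝ := ((Finset.univ.filter (fun k : Fin n => k ≠ i ∧ k ≠ j ∧
                Even ((if G.Adj i j then 1 else 0) + (if G.Adj i k then 1 else 0)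
                  + (if G.Adj j k then 1 else 0) : ℕ))).card : ℝ) with hc
  have hphi : phi G i j = c / ((n : ℝ) - 2) := rfl
  rw [hphi] at hle ⊢
  have hc2 : c ≤ (n : ℝ) - 2 := by
    rwa [div_le_one (by linarith)] at hle
  -- c / (n-2) ≤ (c + 2) / n
  have h4 : c / ((n : ℝ) - 2) ≤ (c + 2) / n := by
    rw [div_le_div_iff₀ (by linarith) (by linarith)]
    nlinarith
  refine h4.trans ?_
  rw [add_div]
  gcongr
  unfold afull
  by_cases hG : G.Adj i j
  · simp only [hG, if_true]
    rw [div_le_iff₀ (by linarith), sub_mul, div_mul_cancel₀ _ (by linarith)]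
    rw [one_mul, le_sub_iff_add_le]
    rw [hc]
    have hd : Disjoint (Finset.univ.filter (fun k : Fin n => k ≠ i ∧ k ≠ j ∧
                Even ((if G.Adj i j then 1 else 0) + (if G.Adj i k then 1 else 0)
                  + (if G.Adj j k then 1 else 0) : ℕ)))
        (Finset.univ.filter fun k : Fin n => (G.Adj k i ↔ G.Adj k j)) := by
      rw [Finset.disjoint_filter]
      intro k _ hk
      rw [G.adj_comm k i, G.adj_comm k j]
      rcases hk with ⟨_, _, he⟩
      by_cases h1 : G.Adj i k <;> by_cases h2 : G.Adj j k <;> simp [hG, h1, h2] at he ⊢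
      · exact absurd he (by decide)
    have h5 := Finset.card_union_of_disjoint hd
    have h6 := Finset.card_le_univ ((Finset.univ.filter (fun k : Fin n => k ≠ i ∧ k ≠ j ∧
                Even ((if G.Adj i j then 1 else 0) + (if G.Adj i k then 1 else 0)
                  + (if G.Adj j k then 1 else 0) : ℕ))) ∪
        (Finset.univ.filter fun k : Fin n => (G.Adj k i ↔ G.Adj k j)))
    rw [h5, Fintype.card_fin] at h6
    have h7 : ((_ + _ : ℕ) : ℝ) ≤ n := Nat.cast_le.mpr h6
    push_cast at h7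
    simpa [hG] using h7
  · simp only [hG, if_false]
    gcongr
    rw [hc]
    refine Nat.cast_le.mpr (Finset.card_le_card ?_)
    intro k hk
    simp only [Finset.mem_filter, Finset.mem_univ, true_and] at hk ⊢
    rw [G.adj_comm k i, G.adj_comm k j]
    rcases hk with ⟨_, _, he⟩
    by_cases h1 : G.Adj i k <;> by_cases h2 : G.Adj j k <;> simp [hG, h1, h2] at he ⊢

theorem per_graph {n m : ℕ} (hn : 3 ≤ n) (hm : 0 < m) (δ : ℝ) (hδ : 0 < δ) (hδ1 : δ ≤ 1)
    (hnδ : 2 / (n : ℝ) ≤ δ / 2) (G : SimpleGraph (Fin n)) :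
    ∃ P : Fin m → Fin n → Bool,
      ∏ i : Fin n, ∏ j : Fin n, (if i < j then phi G i j else 1)
      ≤ (1 / δ) ^ (4 * (n : ℝ) ^ 2 / (m * δ ^ 2)) *
        ∏ i : Fin n, ∏ j : Fin n, (if i < j then wt P i j (decide (G.Adj i j)) + δ else 1) := by
  have hn0 : (0 : ℝ) < n := by
    have : (3 : ℝ) ≤ n := by exact_mod_cast hn
    linarith
  have hm0 : (0 : ℝ) < m := by exact_mod_cast hm
  set Y : Fin n × Fin n → Fin n → ℝ := fun p k =>
    (if (G.Adj k p.1 ↔ G.Adj k p.2) then (1 : ℝ) else 0) - afull G p.1 p.2 with hYdef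
  have haf0 : ∀ i j, 0 ≤ afull G i j := by
    intro i j; unfold afull; positivity
  have haf1 : ∀ i j, afull G i j ≤ 1 := by
    intro i j
    unfold afull
    rw [div_le_one hn0]
    have := Finset.card_le_univ (Finset.univ.filter fun k : Fin n => (G.Adj k i ↔ G.Adj k j))
    rw [Fintype.card_fin] at this
    exact_mod_cast this
  have hY : ∀ p k, |Y p k| ≤ 1 := by
    intro p k
    have h0 := haf0 p.1 p.2
    have h1 := haf1 p.1 p.2
    simp only [hYdef]
    rw [abs_le]
    split_ifs <;> constructor <;> linarith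
  have hY0 : ∀ p, ∑ k, Y p k = 0 := by
    intro p
    simp only [hYdef]
    rw [Finset.sum_sub_distrib, Finset.sum_boole, Finset.sum_const, Finset.card_univ,
      Fintype.card_fin, nsmul_eq_mul]
    unfold afull
    rw [mul_div_cancel₀ _ (ne_of_gt hn0)]
    simp
  obtain ⟨κ, hκ⟩ := sampling (Finset.univ : Finset (Fin n × Fin n)) n (by omega) Y hY hY0 m
  set P : Fin m → Fin n → Bool := fun t i => decide (G.Adj (κ t) i) with hP
  have hsum : ∀ p : Fin n × Fin n, ∑ t, Y p (κ t) = m * (agr P p.1 p.2 - afull G p.1 p.2) := by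
    intro p
    simp only [hYdef]
    rw [Finset.sum_sub_distrib, Finset.sum_boole, Finset.sum_const, Finset.card_univ,
      Fintype.card_fin, nsmul_eq_mul, mul_sub]
    unfold agr
    rw [mul_div_cancel₀ _ (ne_of_gt hm0)]
    simp [hP, decide_eq_decide]
  set B : Finset (Fin n × Fin n) :=
    Finset.univ.filter fun p => δ / 2 < |agr P p.1 p.2 - afull G p.1 p.2| with hB
  have hBcard : (B.card : ℝ) ≤ 4 * (n : ℝ) ^ 2 / (m * δ ^ 2) := by
    have h1 : ∑ p ∈ B, ((m : ℝ) * (δ / 2)) ^ 2 ≤ (m : ℝ) * (n : ℝ) ^ 2 := by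
      calc ∑ p ∈ B, ((m : ℝ) * (δ / 2)) ^ 2 ≤ ∑ p ∈ B, (∑ t, Y p (κ t)) ^ 2 := by
            refine Finset.sum_le_sum fun p hp => ?_
            rw [hsum p]
            simp only [hB, Finset.mem_filter] at hp
            rw [mul_pow, mul_pow, ← sq_abs (agr P p.1 p.2 - afull G p.1 p.2)]
            have := hp.2
            gcongr
        _ ≤ ∑ p, (∑ t, Y p (κ t)) ^ 2 :=
            Finset.sum_le_sum_of_subset_of_nonneg (Finset.subset_univ _)
              (fun _ _ _ => sq_nonneg _)
        _ ≤ (m : ℝ) * (Finset.univ : Finset (Fin n × Fin n)).card := hκ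
        _ = (m : ℝ) * (n : ℝ) ^ 2 := by
            rw [Finset.card_univ, Fintype.card_prod, Fintype.card_fin]
            push_cast
            ring
    rw [Finset.sum_const, nsmul_eq_mul] at h1
    rw [le_div_iff₀ (by positivity)]
    have h2 : (B.card : ℝ) * ((m : ℝ) * (δ / 2)) ^ 2
        = ((B.card : ℝ) * (m * δ ^ 2) * m) / 4 := by ring
    rw [h2] at h1
    have h3 : (B.card : ℝ) * (m * δ ^ 2) * m ≤ (4 * (n : ℝ) ^ 2) * m := by linarith
    exact le_of_mul_le_mul_right h3 hm0
  refine ⟨P, ?_⟩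
  have h1δ : 1 ≤ 1 / δ := by rw [le_div_iff₀ hδ]; linarith
  have hprod : ∏ i : Fin n, ∏ j : Fin n, (if i < j then phi G i j else 1)
      ≤ (∏ i : Fin n, ∏ j : Fin n, (if (i, j) ∈ B then 1 / δ else 1)) *
        ∏ i : Fin n, ∏ j : Fin n, (if i < j then wt P i j (decide (G.Adj i j)) + δ else 1) := by
    rw [← Finset.prod_mul_distrib]
    simp_rw [← Finset.prod_mul_distrib]
    have hpos : ∀ i j : Fin n, 0 ≤ (if i < j then phi G i j else 1) := by
      intro i j
      split_ifs
      · exact phi_nonneg hn G i j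
      · exact zero_le_one
    refine Finset.prod_le_prod (fun i _ => Finset.prod_nonneg fun j _ => hpos i j) fun i _ => ?_
    refine Finset.prod_le_prod (fun j _ => hpos i j) fun j _ => ?_
    by_cases hij : i < j
    · simp only [hij, if_true]
      by_cases hb : (i, j) ∈ B
      · simp only [hb, if_true]
        have hw := wt_nonneg P i j (decide (G.Adj i j))
        have h1 := phi_le_one hn G i j (ne_of_lt hij)
        refine h1.trans ?_
        rw [div_mul_eq_mul_div, one_mul, le_div_iff₀ hδ]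
        linarith
      · simp only [hb, if_false, one_mul]
        have h1 := phi_le hn G i j (ne_of_lt hij)
        simp only [hB, Finset.mem_filter, Finset.mem_univ, true_and, not_lt] at hb
        rw [abs_le] at hb
        refine h1.trans ?_
        unfold wt
        by_cases hG : G.Adj i j
        · simp only [hG, if_true, decide_true]
          linarith [hb.1, hb.2]
        · simp only [hG, if_false, decide_false, Bool.false_eq_true]
          linarith [hb.1, hb.2]
    · simp only [hij, if_false, mul_one]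
      split_ifs
      · exact h1δ
      · exact le_refl _
  refine hprod.trans ?_
  have hBprod : ∏ i : Fin n, ∏ j : Fin n, (if (i, j) ∈ B then 1 / δ else 1)
      = (1 / δ) ^ (B.card : ℝ) := by
    rw [← Fintype.prod_prod_type', Real.rpow_natCast]
    rw [Finset.prod_ite, Finset.prod_const, Finset.prod_const_one, mul_one]
    congr 2
    ext p
    simp
  rw [hBprod]
  refine mul_le_mul_of_nonneg_right (Real.rpow_le_rpow_of_exponent_le h1δ hBcard) ?_
  refine Finset.prod_nonneg fun i _ => Finset.prod_nonneg fun j _ => ?_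
  split_ifs
  · have := wt_nonneg P i j (decide (G.Adj i j)); linarith
  · exact zero_le_one

/-- The explicit upper bound. -/
theorem total {n m : ℕ} (hn : 3 ≤ n) (hm : 0 < m) (δ : ℝ) (hδ : 0 < δ) (hδ1 : δ ≤ 1)
    (hnδ : 2 / (n : ℝ) ≤ δ / 2) :
    ∑ G : SimpleGraph (Fin n), ∏ i : Fin n, ∏ j : Fin n, (if i < j then phi G i j else 1)
      ≤ (1 / δ) ^ (4 * (n : ℝ) ^ 2 / (m * δ ^ 2)) * ((2 : ℝ) ^ (m * n) * (1 + 2 * δ) ^ (n ^ 2)) := by
  set C : ℝ := (1 / δ) ^ (4 * (n : ℝ) ^ 2 / (m * δ ^ 2)) with hC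
  have hC0 : 0 ≤ C := Real.rpow_nonneg (by positivity) _
  have hT : ∀ (P : Fin m → Fin n → Bool) (G : SimpleGraph (Fin n)),
      0 ≤ ∏ i : Fin n, ∏ j : Fin n, (if i < j then wt P i j (decide (G.Adj i j)) + δ else 1) := by
    intro P G
    refine Finset.prod_nonneg fun i _ => Finset.prod_nonneg fun j _ => ?_
    split_ifs
    · have := wt_nonneg P i j (decide (G.Adj i j)); linarith
    · exact zero_le_one
  have h1 : ∀ G : SimpleGraph (Fin n), ∏ i : Fin n, ∏ j : Fin n, (if i < j then phi G i j else 1)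
      ≤ C * ∑ P : Fin m → Fin n → Bool,
        ∏ i : Fin n, ∏ j : Fin n, (if i < j then wt P i j (decide (G.Adj i j)) + δ else 1) := by
    intro G
    obtain ⟨P, hP⟩ := per_graph hn hm δ hδ hδ1 hnδ G
    refine hP.trans (mul_le_mul_of_nonneg_left ?_ hC0)
    exact Finset.single_le_sum (f := fun P : Fin m → Fin n → Bool =>
      ∏ i : Fin n, ∏ j : Fin n, (if i < j then wt P i j (decide (G.Adj i j)) + δ else 1))
      (fun P _ => hT P G) (Finset.mem_univ P)
  refine (Finset.sum_le_sum fun G _ => h1 G).trans ?_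
  rw [← Finset.mul_sum]
  refine mul_le_mul_of_nonneg_left ?_ hC0
  rw [Finset.sum_comm]
  have h2 : ∀ P : Fin m → Fin n → Bool, ∑ G : SimpleGraph (Fin n),
      ∏ i : Fin n, ∏ j : Fin n, (if i < j then wt P i j (decide (G.Adj i j)) + δ else 1)
      ≤ (1 + 2 * δ) ^ (n ^ 2) := by
    intro P
    refine (sum_graphs n (fun i j x => wt P i j x + δ)
      (fun i j x => by have := wt_nonneg P i j x; linarith)).trans ?_
    have h3 : ∀ i j : Fin n, (if i < j then (wt P i j false + δ) + (wt P i j true + δ) else 1)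
        ≤ 1 + 2 * δ := by
      intro i j
      split_ifs
      · unfold wt; simp only [if_true, Bool.false_eq_true, if_false]; linarith
      · linarith
    have h4 : ∀ i j : Fin n, 0 ≤ (if i < j then (wt P i j false + δ) + (wt P i j true + δ) else 1) := by
      intro i j
      split_ifs
      · have := wt_nonneg P i j true; have := wt_nonneg P i j false; linarith
      · exact zero_le_one
    calc ∏ i : Fin n, ∏ j : Fin n, (if i < j then (wt P i j false + δ) + (wt P i j true + δ) else 1)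
        ≤ ∏ i : Fin n, ∏ j : Fin n, (1 + 2 * δ) := by
          refine Finset.prod_le_prod (fun i _ => Finset.prod_nonneg fun j _ => h4 i j) fun i _ => ?_
          exact Finset.prod_le_prod (fun j _ => h4 i j) fun j _ => h3 i j
      _ = (1 + 2 * δ) ^ (n ^ 2) := by
          rw [Finset.prod_const, Finset.prod_const, Finset.card_univ, Fintype.card_fin, ← pow_mul, sq]
  refine (Finset.sum_le_sum fun P _ => h2 P).trans (le_of_eq ?_)
  rw [Finset.sum_const, Finset.card_univ, Fintype.card_fun, Fintype.card_fun, Fintype.card_fin,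
    Fintype.card_fin, Fintype.card_bool, nsmul_eq_mul, ← pow_mul, mul_comm n m]
  push_cast
  ring

theorem main : ∀ ε : ℝ, 0 < ε → ∃ N : ℕ, ∀ n : ℕ, N ≤ n →
      ∑ G : SimpleGraph (Fin n), ∏ i : Fin n, ∏ j : Fin n, (if i < j then phi G i j else 1)
      ≤ (2 : ℝ) ^ (ε * (n : ℝ) ^ 2) := by
  intro ε hε
  have hl2 : 0 < Real.log 2 := Real.log_pos (by norm_num)
  set L : ℝ := ε * Real.log 2 with hL
  have hL0 : 0 < L := mul_pos hε hl2
  set δ : ℝ := min 1 (L / 6) with hδdef
  have hδ : 0 < δ := lt_min one_pos (by positivity)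
  have hδ1 : δ ≤ 1 := min_le_left _ _
  have hδL : δ ≤ L / 6 := min_le_right _ _
  obtain ⟨m, hm⟩ := exists_nat_gt (12 * Real.log (1 / δ) / (L * δ ^ 2))
  have hlogδ : 0 ≤ Real.log (1 / δ) := Real.log_nonneg (by rw [le_div_iff₀ hδ]; linarith)
  have hm0 : (0 : ℝ) < m := lt_of_le_of_lt (by positivity) hm
  have hmN : 0 < m := by exact_mod_cast hm0
  obtain ⟨N1, hN1⟩ := exists_nat_gt (4 / δ)
  obtain ⟨N2, hN2⟩ := exists_nat_gt (3 * m * Real.log 2 / L)
  refine ⟨max 3 (max N1 N2), fun n hn => ?_⟩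
  have hn3 : 3 ≤ n := le_trans (le_max_left _ _) hn
  have hnN1 : N1 ≤ n := le_trans (le_trans (le_max_left _ _) (le_max_right _ _)) hn
  have hnN2 : N2 ≤ n := le_trans (le_trans (le_max_right _ _) (le_max_right _ _)) hn
  have hn0 : (0 : ℝ) < n := by
    have : (3 : ℝ) ≤ n := by exact_mod_cast hn3
    linarith
  have hn1 : 4 / δ ≤ n := hN1.le.trans (by exact_mod_cast hnN1)
  have hn2 : 3 * m * Real.log 2 / L ≤ n := hN2.le.trans (by exact_mod_cast hnN2)
  have hnδ : 2 / (n : ℝ) ≤ δ / 2 := by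
    rw [div_le_iff₀ hδ] at hn1
    rw [div_le_div_iff₀ hn0 (by norm_num)]
    linarith
  refine (total hn3 hmN δ hδ hδ1 hnδ).trans ?_
  have e1 : (1 / δ) ^ (4 * (n : ℝ) ^ 2 / (m * δ ^ 2)) ≤ Real.exp (L / 3 * (n : ℝ) ^ 2) := by
    rw [Real.rpow_def_of_pos (by positivity)]
    apply Real.exp_le_exp.mpr
    have h1 : 12 * Real.log (1 / δ) ≤ m * (L * δ ^ 2) := by
      have := hm.le
      rwa [div_le_iff₀ (by positivity)] at this
    rw [← mul_div_assoc, div_le_iff₀ (by positivity)]
    have hn2' : 0 ≤ (n : ℝ) ^ 2 := by positivity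
    nlinarith
  have e2 : (2 : ℝ) ^ (m * n) ≤ Real.exp (L / 3 * (n : ℝ) ^ 2) := by
    rw [← Real.rpow_natCast, Real.rpow_def_of_pos (by norm_num)]
    apply Real.exp_le_exp.mpr
    rw [div_le_iff₀ hL0] at hn2
    push_cast
    have := mul_le_mul_of_nonneg_right hn2 hn0.le
    nlinarith
  have e3 : (1 + 2 * δ) ^ (n ^ 2) ≤ Real.exp (L / 3 * (n : ℝ) ^ 2) := by
    calc (1 + 2 * δ) ^ (n ^ 2) ≤ (Real.exp (2 * δ)) ^ (n ^ 2) := by
          apply pow_le_pow_left₀ (by positivity)
          have := Real.add_one_le_exp (2 * δ)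
          linarith
      _ = Real.exp (2 * δ * (n : ℝ) ^ 2) := by
          rw [← Real.exp_nat_mul]
          congr 1
          push_cast
          ring
      _ ≤ Real.exp (L / 3 * (n : ℝ) ^ 2) := by
          apply Real.exp_le_exp.mpr
          have hn2' : 0 ≤ (n : ℝ) ^ 2 := by positivity
          nlinarith
  have e4 : (2 : ℝ) ^ (ε * (n : ℝ) ^ 2) = Real.exp (L / 3 * (n : ℝ) ^ 2) *
      (Real.exp (L / 3 * (n : ℝ) ^ 2) * Real.exp (L / 3 * (n : ℝ) ^ 2)) := by
    rw [← Real.exp_add, ← Real.exp_add, Real.rpow_def_of_pos (by norm_num)]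
    congr 1
    rw [hL]
    ring
  rw [e4]
  have hp := Real.exp_pos (L / 3 * (n : ℝ) ^ 2)
  refine mul_le_mul e1 (mul_le_mul e2 e3 (by positivity) hp.le) (by positivity) hp.le

end Pool.Agent.R89.ET
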