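import Mathlib

set_option autoImplicit false

namespace Pool.Agent.R89.IS

open Finset

/-- Sum of `h (k + |I|)` over the independent sets inside the available vertices `< i`. -/
def F (M : ℕ → ℕ) (h : ℕ → ℕ) (i : ℕ) : ℕ → ℕ → ℕ :=
  Nat.rec (fun _ k => h k)
    (fun i ih avail k => ih avail k + cond (avail.testBit i) (ih (avail &&& M i) (k + 1)) 0) i

lemma F_zero (M : ℕ → ℕ) (h : ℕ → ℕ) (avail k : ℕ) : F M h 0 avail k = h k := rfl

lemma F_succ (M : ℕ → ℕ) (h : ℕ → ℕ) (i avail k : ℕ) : F M h (i + 1) avail k =
    F M h i avail k + cond (avail.testBit i) (F M h i (avail &&& M i) (k + 1)) 0 := rfl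

open Classical in
theorem F_eq {n : ℕ} (G : SimpleGraph (Fin n)) (M : ℕ → ℕ) (h : ℕ → ℕ)
    (hM : ∀ i j : Fin n, j < i → ((M i).testBit j = true ↔ ¬ G.Adj i j)) :
    ∀ i : ℕ, i ≤ n → ∀ avail k : ℕ, F M h i avail k =
      ∑ I ∈ univ.filter (fun I : Finset (Fin n) =>
        (∀ v ∈ I, (v : ℕ) < i ∧ avail.testBit v = true) ∧ G.IsIndepSet (I : Set (Fin n))),
        h (k + I.card) := by
  intro i
  induction i with
  | zero =>
    intro _ avail k
    have : univ.filter (fun I : Finset (Fin n) =>
        (∀ v ∈ I, (v : ℕ) < 0 ∧ avail.testBit v = true) ∧ G.IsIndepSet (I : Set (Fin n))) = {∅} := by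
      ext I
      rw [mem_filter, mem_singleton]
      constructor
      · rintro ⟨_, h1, _⟩
        rw [eq_empty_iff_forall_notMem]
        intro v hv
        exact absurd (h1 v hv).1 (by omega)
      · rintro rfl
        simp
    rw [this, sum_singleton, F_zero]
    simp
  | succ i ih =>
    intro hi avail k
    rw [F_succ, ih (by omega) avail k]
    set v0 : Fin n := ⟨i, by omega⟩ with hv0
    have hsplit := Finset.sum_filter_add_sum_filter_not
      (univ.filter (fun I : Finset (Fin n) =>
        (∀ v ∈ I, (v : ℕ) < i + 1 ∧ avail.testBit v = true) ∧ G.IsIndepSet (I : Set (Fin n))))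
      (fun I => v0 ∉ I) (fun I => h (k + I.card))
    rw [← hsplit]
    congr 1
    · apply sum_congr _ (fun _ _ => rfl)
      ext I
      simp only [mem_filter, mem_univ, true_and]
      constructor
      · rintro ⟨h1, h2⟩
        exact ⟨⟨fun v hv => ⟨by have := (h1 v hv).1; omega, (h1 v hv).2⟩, h2⟩, fun hv => by
          have := (h1 v0 hv).1
          simp [hv0] at this⟩
      · rintro ⟨⟨h1, h2⟩, h3⟩
        refine ⟨fun v hv => ⟨?_, (h1 v hv).2⟩, h2⟩
        have h4 := (h1 v hv).1
        have h5 : (v : ℕ) ≠ i := by
          intro h5
          apply h3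
          have : v = v0 := Fin.ext h5
          rwa [← this]
        omega
    · cases hb : avail.testBit i with
      | false =>
        rw [cond_false]
        symm
        apply sum_eq_zero
        intro I hI
        simp only [mem_filter, mem_univ, true_and, not_not] at hI
        have := (hI.1.1 v0 hI.2).2
        rw [show ((v0 : Fin n) : ℕ) = i from rfl, hb] at this
        exact absurd this (by simp)
      | true =>
        rw [cond_true, ih (by omega)]
        refine sum_bij (fun I _ => insert v0 I) ?_ ?_ ?_ ?_
        · intro I hI
          simp only [mem_filter, mem_univ, true_and, Nat.testBit_land, Bool.and_eq_true] at hI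
          simp only [mem_filter, mem_univ, true_and, not_not, mem_insert, true_or, and_true]
          refine ⟨?_, ?_⟩
          · rintro v (rfl | hv)
            · exact ⟨by simp [hv0], hb⟩
            · exact ⟨by have := (hI.1 v hv).1; omega, (hI.1 v hv).2.1⟩
          · rw [coe_insert]
            intro a ha b hb' hab
            rcases ha with rfl | ha <;> rcases hb' with rfl | hb'
            · exact absurd rfl hab
            · have h6 := hI.1 b (by exact_mod_cast hb')
              exact (hM v0 b h6.1).1 h6.2.2
            · have h6 := hI.1 a (by exact_mod_cast ha)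
              intro hadj
              exact (hM v0 a h6.1).1 h6.2.2 hadj.symm
            · exact hI.2 ha hb' hab
        · intro I hI J hJ hIJ
          have h1 : v0 ∉ I := by
            intro hv
            simp only [mem_filter, mem_univ, true_and] at hI
            have := (hI.1 v0 hv).1
            simp [hv0] at this
          have h2 : v0 ∉ J := by
            intro hv
            simp only [mem_filter, mem_univ, true_and] at hJ
            have := (hJ.1 v0 hv).1
            simp [hv0] at this
          rw [← erase_insert h1, ← erase_insert h2, hIJ]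
        · intro I hI
          simp only [mem_filter, mem_univ, true_and, not_not] at hI
          refine ⟨I.erase v0, ?_, insert_erase hI.2⟩
          simp only [mem_filter, mem_univ, true_and, Nat.testBit_land, Bool.and_eq_true, mem_erase]
          refine ⟨?_, ?_⟩
          · rintro v ⟨hv1, hv2⟩
            have h1 := hI.1.1 v hv2
            have h5 : (v : ℕ) ≠ i := by
              intro h5
              exact hv1 (Fin.ext h5)
            have h6 : (v : ℕ) < i := by have := h1.1; omega
            refine ⟨h6, h1.2, ?_⟩
            apply (hM v0 v h6).2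
            exact hI.1.2 (by exact_mod_cast hI.2) (by exact_mod_cast hv2) (Ne.symm hv1)
          · intro a ha b hb' hab
            rw [mem_coe, mem_erase] at ha hb'
            exact hI.1.2 (by exact_mod_cast ha.2) (by exact_mod_cast hb'.2) hab
        · intro I hI
          have h1 : v0 ∉ I := by
            intro hv
            simp only [mem_filter, mem_univ, true_and] at hI
            have := (hI.1 v0 hv).1
            simp [hv0] at this
          rw [card_insert_of_notMem h1]
          congr 1
          omega

open Classical in
/-- The full sum. -/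
theorem F_full {n : ℕ} (G : SimpleGraph (Fin n)) (M : ℕ → ℕ) (h : ℕ → ℕ)
    (hM : ∀ i j : Fin n, j < i → ((M i).testBit j = true ↔ ¬ G.Adj i j)) :
    (∑ I : Finset (Fin n), if G.IsIndepSet (I : Set (Fin n)) then h I.card else 0)
      = F M h n (2 ^ n - 1) 0 := by
  rw [F_eq G M h hM n le_rfl, ← sum_filter]
  apply sum_congr
  · ext I
    simp only [mem_filter, mem_univ, true_and]
    constructor
    · intro h1
      refine ⟨fun v _ => ⟨v.2, ?_⟩, h1⟩
      rw [Nat.testBit_two_pow_sub_one]
      simp
    · exact fun h1 => h1.2
  · intro I _
    rw [zero_add]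

/-- The full sum, for arbitrary decidability instances. -/
theorem F_full' {n : ℕ} (G : SimpleGraph (Fin n)) (M : ℕ → ℕ) (h : ℕ → ℕ)
    (hM : ∀ i j : Fin n, j < i → ((M i).testBit j = true ↔ ¬ G.Adj i j))
    (dec : ∀ I : Finset (Fin n), Decidable (G.IsIndepSet (I : Set (Fin n)))) :
    (∑ I : Finset (Fin n), @ite ℕ (G.IsIndepSet (I : Set (Fin n))) (dec I) (h I.card) 0)
      = F M h n (2 ^ n - 1) 0 := by
  classical
  rw [← F_full G M h hM]
  apply sum_congr rfl
  intro I _
  by_cases hI : G.IsIndepSet (I : Set (Fin n))
  · rw [if_pos hI, if_pos hI]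
  · rw [if_neg hI, if_neg hI]

end Pool.Agent.R89.IS
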