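import Mathlib
import Pool.Agent.R89.IndepSum

set_option autoImplicit false

namespace Pool.Agent.R89.Occ

open Finset Pool.Agent.R89.IS

/-- graph from bit masks -/
def adjOf (A : List ℕ) (i j : ℕ) : Bool := (A.getD i 0).testBit j

/-- Twenty vertex 4-regular triangle-free graph. -/
def A20 : List ℕ := [295172, 17680, 67713, 172096, 10274, 200720, 527368, 656388, 131587, 39168,
  262338, 596, 786976, 327704, 622594, 16905, 24612, 424, 13313, 20672]

def M20 : List ℕ := [753403, 1030895, 980862, 876479, 1038301, 847855, 521207, 392187, 916988,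
  1009407, 786237, 1047979, 261599, 720871, 425981, 1031670, 1023963, 1048151, 1035262, 1027903]

/-- Robertson graph. -/
def A19 : List ℕ := [266498, 65573, 8714, 262292, 36904, 1106, 139424, 2376, 33409, 132356, 18976,
  70784, 10257, 20548, 304128, 82192, 165890, 328256, 147465]

def G20 : SimpleGraph (Fin 20) where
  Adj i j := adjOf A20 i j = true
  symm := ⟨by decide⟩
  loopless := ⟨by decide⟩

def G19 : SimpleGraph (Fin 19) where
  Adj i j := adjOf A19 i j = true
  symm := ⟨by decide⟩
  loopless := ⟨by decide⟩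

/-- The circulant on 13 vertices. -/
def G13 : SimpleGraph (Fin 13) where
  Adj i j := i - j = 1 ∨ i - j = 5 ∨ j - i = 1 ∨ j - i = 5
  symm := ⟨by decide⟩
  loopless := ⟨by decide⟩

def M13 : List ℕ := [3805, 7610, 7029, 5867, 3543, 7086, 5981, 3771, 7542, 6893, 5595, 2999, 5998]

lemma reg20 : ∀ v : Fin 20, (univ.filter (fun w : Fin 20 => adjOf A20 v w = true)).card = 4 := by
  decide

lemma reg19 : ∀ v : Fin 19, (univ.filter (fun w : Fin 19 => adjOf A19 v w = true)).card = 4 := by
  decide

lemma G20_regular [G20.LocallyFinite] : G20.IsRegularOfDegree 4 := by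
  intro v
  rw [← SimpleGraph.card_neighborFinset_eq_degree, ← reg20 v]
  congr 1
  ext w
  rw [SimpleGraph.mem_neighborFinset, mem_filter]
  exact ⟨fun h => ⟨mem_univ _, h⟩, fun h => h.2⟩

lemma G19_regular [G19.LocallyFinite] : G19.IsRegularOfDegree 4 := by
  intro v
  rw [← SimpleGraph.card_neighborFinset_eq_degree, ← reg19 v]
  congr 1
  ext w
  rw [SimpleGraph.mem_neighborFinset, mem_filter]
  exact ⟨fun h => ⟨mem_univ _, h⟩, fun h => h.2⟩

lemma tri20 : ∀ a b c : Fin 20, adjOf A20 a b = true → adjOf A20 b c = true →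
    adjOf A20 c a = true → False := by
  decide

lemma tri19 : ∀ a b c : Fin 19, adjOf A19 a b = true → adjOf A19 b c = true →
    adjOf A19 c a = true → False := by
  decide

lemma quad19 : ∀ a c : Fin 19, a ≠ c →
    (univ.filter (fun b : Fin 19 => adjOf A19 a b = true ∧ adjOf A19 b c = true)).card ≤ 1 := by
  decide

lemma G20_cliqueFree : G20.CliqueFree 3 := by
  intro s hs
  rw [SimpleGraph.is3Clique_iff] at hs
  obtain ⟨a, b, c, hab, hac, hbc, _⟩ := hs
  exact tri20 a b c hab hbc hac.symm

lemma G19_girth : (5 : ℕ∞) ≤ G19.egirth := by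
  rw [SimpleGraph.le_egirth]
  intro a w hw
  have hlen3 := hw.three_le_length
  by_contra hcon
  have hlt : w.length < 5 := by
    by_contra h
    apply hcon
    have : 5 ≤ w.length := by omega
    exact_mod_cast this
  have hcases : w.length = 3 ∨ w.length = 4 := by omega
  rcases hcases with h | h
  · cases w with
    | nil => simp at h
    | cons h1 w => cases w with
      | nil => simp at h
      | cons h2 w => cases w with
        | nil => simp at h
        | cons h3 w => cases w with
          | nil => exact tri19 _ _ _ h1 h2 h3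
          | cons h4 w => simp at h
  · cases w with
    | nil => simp at h
    | @cons _ b _ h1 w => cases w with
      | nil => simp at h
      | @cons _ c _ h2 w => cases w with
        | nil => simp at h
        | @cons _ d _ h3 w => cases w with
          | nil => simp at h
          | cons h4 w => cases w with
            | cons h5 w => simp at h
            | nil =>
              have hnd := hw.support_nodup
              simp only [SimpleGraph.Walk.support_cons, SimpleGraph.Walk.support_nil,
                List.tail_cons, List.nodup_cons, List.mem_cons, List.not_mem_nil, or_false,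
                not_or] at hnd
              have hbd : b ≠ d := hnd.1.2.1
              have hca : a ≠ c := fun e => hnd.2.1.2 e.symm
              have hq := quad19 a c hca
              have h6 : ({b, d} : Finset (Fin 19)) ⊆ univ.filter (fun x : Fin 19 =>
                  adjOf A19 a x = true ∧ adjOf A19 x c = true) := by
                intro x hx
                rw [mem_insert, mem_singleton] at hx
                rw [mem_filter]
                rcases hx with rfl | rfl
                · exact ⟨mem_univ _, h1, h2⟩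
                · exact ⟨mem_univ _, G19.adj_symm h4, G19.adj_symm h3⟩
              have h7 := card_le_card h6
              rw [card_pair hbd] at h7
              omega

lemma M20_spec : ∀ i j : Fin 20, j < i →
    (((M20.getD i 0).testBit j = true) ↔ ¬ (adjOf A20 i j = true)) := by
  decide

lemma M13_spec : ∀ i j : Fin 13, j < i →
    (((M13.getD i 0).testBit j = true) ↔ ¬ (i - j = 1 ∨ i - j = 5 ∨ j - i = 1 ∨ j - i = 5)) := by
  decide

lemma F20_1 : F (fun i => M20.getD i 0) (fun k => 2 ^ k) 20 (2 ^ 20 - 1) 0 = 72225 := by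
  decide +kernel

lemma F20_2 : F (fun i => M20.getD i 0) (fun k => k * 2 ^ k) 20 (2 ^ 20 - 1) 0 = 359800 := by
  decide +kernel

lemma F13_1 : F (fun i => M13.getD i 0) (fun k => 2 ^ k) 13 (2 ^ 13 - 1) 0 = 1483 := by
  decide +kernel

lemma F13_2 : F (fun i => M13.getD i 0) (fun k => k * 2 ^ k) 13 (2 ^ 13 - 1) 0 = 4810 := by
  decide +kernel

lemma Z20 (dec : ∀ I : Finset (Fin 20), Decidable (G20.IsIndepSet (I : Set (Fin 20)))) :
    (∑ I : Finset (Fin 20), @ite ℝ (G20.IsIndepSet (I : Set (Fin 20))) (dec I)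
      ((2 : ℝ) ^ I.card) 0) = 72225 := by
  have h := F_full' G20 (fun i => M20.getD i 0) (fun k => 2 ^ k) (fun i j hij => M20_spec i j hij) dec
  rw [F20_1] at h
  have h2 := congrArg (Nat.cast (R := ℝ)) h
  push_cast at h2
  exact h2

lemma D20 (dec : ∀ I : Finset (Fin 20), Decidable (G20.IsIndepSet (I : Set (Fin 20)))) :
    (∑ I : Finset (Fin 20), @ite ℝ (G20.IsIndepSet (I : Set (Fin 20))) (dec I)
      ((I.card : ℝ) * (2 : ℝ) ^ I.card) 0) = 359800 := by
  have h := F_full' G20 (fun i => M20.getD i 0) (fun k => k * 2 ^ k) (fun i j hij => M20_spec i j hij) dec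
  rw [F20_2] at h
  have h2 := congrArg (Nat.cast (R := ℝ)) h
  push_cast at h2
  exact h2

lemma Z13 (dec : ∀ I : Finset (Fin 13), Decidable (G13.IsIndepSet (I : Set (Fin 13)))) :
    (∑ I : Finset (Fin 13), @ite ℝ (G13.IsIndepSet (I : Set (Fin 13))) (dec I)
      ((2 : ℝ) ^ I.card) 0) = 1483 := by
  have h := F_full' G13 (fun i => M13.getD i 0) (fun k => 2 ^ k) (fun i j hij => M13_spec i j hij) dec
  rw [F13_1] at h
  have h2 := congrArg (Nat.cast (R := ℝ)) h
  push_cast at h2
  exact h2

lemma D13 (dec : ∀ I : Finset (Fin 13), Decidable (G13.IsIndepSet (I : Set (Fin 13)))) :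
    (∑ I : Finset (Fin 13), @ite ℝ (G13.IsIndepSet (I : Set (Fin 13))) (dec I)
      ((I.card : ℝ) * (2 : ℝ) ^ I.card) 0) = 4810 := by
  have h := F_full' G13 (fun i => M13.getD i 0) (fun k => k * 2 ^ k) (fun i j hij => M13_spec i j hij) dec
  rw [F13_2] at h
  have h2 := congrArg (Nat.cast (R := ℝ)) h
  push_cast at h2
  exact h2

theorem final (K : SimpleGraph (Fin 13)) (hK : K = G13)
    (dec1 dec2 : ∀ I : Finset (Fin 13), Decidable (K.IsIndepSet (I : Set (Fin 13))))
    (dec3 dec4 : ∀ I : Finset (Fin 20), Decidable (G20.IsIndepSet (I : Set (Fin 20))))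
    (h : (∑ I : Finset (Fin 13), @ite ℝ (K.IsIndepSet (I : Set (Fin 13))) (dec1 I)
        ((I.card : ℝ) * (2 : ℝ) ^ I.card) 0) /
      ((Fintype.card (Fin 13) : ℝ) * ∑ I : Finset (Fin 13),
        @ite ℝ (K.IsIndepSet (I : Set (Fin 13))) (dec2 I) ((2 : ℝ) ^ I.card) 0) ≤
      (∑ I : Finset (Fin 20), @ite ℝ (G20.IsIndepSet (I : Set (Fin 20))) (dec3 I)
        ((I.card : ℝ) * (2 : ℝ) ^ I.card) 0) /
      ((Fintype.card (Fin 20) : ℝ) * ∑ I : Finset (Fin 20),
        @ite ℝ (G20.IsIndepSet (I : Set (Fin 20))) (dec4 I) ((2 : ℝ) ^ I.card) 0)) : False := by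
  subst hK
  rw [Z20 dec4, D20 dec3, Z13 dec2, D13 dec1, Fintype.card_fin, Fintype.card_fin] at h
  norm_num at h

lemma G13_eq : (SimpleGraph.fromRel (fun x y : ZMod 13 => x - y = 1 ∨ x - y = 5))
    = (G13 : SimpleGraph (Fin 13)) := by
  have key : ∀ x y : Fin 13, (x ≠ y ∧ ((x - y = 1 ∨ x - y = 5) ∨ (y - x = 1 ∨ y - x = 5))) ↔
      (x - y = 1 ∨ x - y = 5 ∨ y - x = 1 ∨ y - x = 5) := by decide
  ext x y
  rw [SimpleGraph.fromRel_adj]
  exact key x y

/-- the sextic -/
noncomputable def q (L : ℝ) : ℝ := 90*L^6 + 729*L^5 - 188*L^4 - 1632*L^3 - 1247*L^2 - 363*L - 38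

lemma root : ∃ L : ℝ, q L = 0 ∧ (∀ x : ℝ, q x = 0 → x ≤ L) ∧ L ≤ 2 := by
  have hcont : Continuous q := by unfold q; fun_prop
  have hle : ∀ x : ℝ, q x = 0 → x ≤ 2 := by
    intro x hx
    by_contra hcon
    push Not at hcon
    have hy : 0 < x - 2 := by linarith
    set y := x - 2 with hydef
    have hxy : x = 2 + y := by rw [hydef]; ring
    rw [hxy] at hx
    unfold q at hx
    have : 90*(2+y)^6 + 729*(2+y)^5 - 188*(2+y)^4 - 1632*(2+y)^3 - 1247*(2+y)^2 - 363*(2+y) - 38
      = 90*y^6 + 1809*y^5 + 12502*y^4 + 40424*y^3 + 64369*y^2 + 44649*y + 7272 + (0 : ℝ) := by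
      ring
    rw [this] at hx
    have h1 : 0 < 90*y^6 + 1809*y^5 + 12502*y^4 + 40424*y^3 + 64369*y^2 + 44649*y + 7272 + (0 : ℝ) := by
      positivity
    linarith
  have hex : ∃ x ∈ Set.Icc (1 : ℝ) 2, q x = 0 := by
    have h1 : q 1 ≤ 0 := by unfold q; norm_num
    have h2 : 0 ≤ q 2 := by unfold q; norm_num
    have := intermediate_value_Icc (by norm_num : (1 : ℝ) ≤ 2) hcont.continuousOn
    obtain ⟨x, hx, hx2⟩ := this ⟨h1, h2⟩
    exact ⟨x, hx, hx2⟩
  obtain ⟨x0, _, hx0⟩ := hex
  set S : Set ℝ := {x | q x = 0} with hS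
  have hclosed : IsClosed S := isClosed_eq hcont continuous_const
  have hne : S.Nonempty := ⟨x0, hx0⟩
  have hbdd : BddAbove S := ⟨2, fun x hx => hle x hx⟩
  have hmem : sSup S ∈ S := hclosed.csSup_mem hne hbdd
  exact ⟨sSup S, hmem, fun x hx => le_csSup hbdd hx, hle _ hmem⟩

end Pool.Agent.R89.Occ
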